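import Pool.Agent.H36.Ord

open Pool.Agent.H38.NP Pool.Agent.H36.Ord

theorem Pool.Agent.Results.MP_e5cbc1_lc.TypeA.result :
    NPComplete (lang fun p : ℕ × List (ℕ × ℕ) => ∃ l, IsA (graphOf p.1 p.2) l) :=
  ⟨inNP_of false verA, hardA.npHard fun _ _ => Iff.rfl⟩
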